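import Pool.Agent.H62.BrMax
import Pool.Agent.H38.BR.Hit

set_option autoImplicit false

/-!
# Two levels of classes

`L` is a finite lattice, `Mx` a finite set of elements such that every subset of `Mx` has a subset
of at most `b` elements with the same join.  There are maps `m ≤ g m ≤ g1 m` with few sets
`{m : g m ≤ x}` (fine level) and very few sets `{m : g1 m ≤ x}` (coarse level), such that the
fine set determines the coarse one.
-/

namespace Pool.Agent.H51.TwoLev

open Classical in
/-- Few classes, in the form needed for the weights. -/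
theorem classes' {L : Type*} [Lattice L] [BoundedOrder L] [Fintype L] (b : ℕ) (Mx : Finset L)
    (h : ∀ A ⊆ Mx, ∃ B ⊆ A, B.card ≤ b ∧ B.sup id = A.sup id) (Y : Finset L) :
    ∃ (g cls : L → L),
      (∀ m ∈ Mx, m ≤ g m) ∧
      (∀ m : L, ∃ A ⊆ Mx, g m = A.sup id) ∧
      (∀ m y : L, y ∈ Y → m ≤ y → g m ≤ y) ∧
      (∀ x x', cls x = cls x' → ∀ m : L, (g m ≤ x ↔ g m ≤ x')) ∧
      ((Finset.univ : Finset L).image cls).card ≤ ((Y.card + 1) ^ b + 1) ^ b := by
  set g : L → L := fun m => (Mx.filter (fun m' => ∀ y ∈ Y, m ≤ y → m' ≤ y)).sup id with hg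
  set val : (Fin b → L) → L := fun f => (Mx.filter (fun m' => ∀ i, m' ≤ f i)).sup id with hval
  set G : Finset L := (Fintype.piFinset (fun _ : Fin b => insert ⊤ Y)).image val with hG
  have hgG : ∀ m : L, g m ∈ G := by
    intro m
    obtain ⟨T, hTS, hTb, hT⟩ := H62.BrMax.few_bounds b Mx h (Y.filter (fun y => m ≤ y))
    rw [hG, Finset.mem_image]
    obtain ⟨f, hf⟩ : ∃ f : Fin b → L, ∀ i, f i =
        if h : i.val < T.card then ((T.equivFin.symm ⟨i.val, h⟩ : T) : L) else ⊤ :=
      ⟨_, fun _ => rfl⟩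
    refine ⟨f, ?_, ?_⟩
    · rw [Fintype.mem_piFinset]
      intro i
      rw [hf]
      by_cases h : i.val < T.card
      · rw [dif_pos h]
        exact Finset.mem_insert_of_mem
          (Finset.filter_subset _ _ (hTS (T.equivFin.symm ⟨i.val, h⟩).2))
      · rw [dif_neg h]
        exact Finset.mem_insert_self _ _
    · have hfe : Mx.filter (fun m' => ∀ i, m' ≤ f i) =
          Mx.filter (fun m' => ∀ y ∈ Y, m ≤ y → m' ≤ y) := by
        ext m'
        simp only [Finset.mem_filter]
        refine and_congr_right fun hm' => ?_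
        constructor
        · intro hi y hy hmy
          refine hT m' hm' ?_ y (Finset.mem_filter.2 ⟨hy, hmy⟩)
          intro t ht
          have hlt : (T.equivFin ⟨t, ht⟩).val < b := lt_of_lt_of_le (T.equivFin ⟨t, ht⟩).2 hTb
          have h1 := hi ⟨(T.equivFin ⟨t, ht⟩).val, hlt⟩
          rw [hf, dif_pos (T.equivFin ⟨t, ht⟩).2] at h1
          simpa using h1
        · intro hy i
          rw [hf]
          by_cases h : i.val < T.card
          · rw [dif_pos h]
            have h1 := hTS (T.equivFin.symm ⟨i.val, h⟩).2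
            rw [Finset.mem_filter] at h1
            exact hy _ h1.1 h1.2
          · rw [dif_neg h]
            exact le_top
      show (Mx.filter (fun m' => ∀ i, m' ≤ f i)).sup id = _
      rw [hfe]
  have hGcard : G.card ≤ (Y.card + 1) ^ b := H73.BrCls.card_aux b Y ⊤ _
  have hGM : ∀ u ∈ G, ∃ A ⊆ Mx, u = A.sup id := by
    intro u hu
    obtain ⟨f, _, rfl⟩ := Finset.mem_image.1 hu
    exact ⟨_, Finset.filter_subset _ _, rfl⟩
  refine ⟨g, fun x => (G.filter (fun u => u ≤ x)).sup id, ?_,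
    fun m => ⟨_, Finset.filter_subset _ _, rfl⟩, ?_, ?_, ?_⟩
  · intro m hm
    exact Finset.le_sup (f := id) (Finset.mem_filter.2 ⟨hm, fun y _ hmy => hmy⟩)
  · intro m y hy hmy
    refine Finset.sup_le ?_
    intro m' hm'
    exact (Finset.mem_filter.1 hm').2 y hy hmy
  · have key : ∀ x u : L, u ∈ G → (u ≤ x ↔ u ≤ (G.filter (fun u => u ≤ x)).sup id) := by
      intro x u hu
      constructor
      · intro hux
        exact Finset.le_sup (f := id) (Finset.mem_filter.2 ⟨hu, hux⟩)
      · intro hux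
        refine hux.trans (Finset.sup_le ?_)
        intro u' hu'
        exact (Finset.mem_filter.1 hu').2
    intro x x' hxx m
    have hxx' : (G.filter (fun u => u ≤ x)).sup id = (G.filter (fun u => u ≤ x')).sup id := hxx
    rw [key x _ (hgG m), key x' _ (hgG m), hxx']
  · have hsub : (Finset.univ : Finset L).image (fun x => (G.filter (fun u => u ≤ x)).sup id) ⊆
        (Fintype.piFinset (fun _ : Fin b => insert ⊥ G)).image (fun f => Finset.univ.sup f) := by
      intro s hs
      obtain ⟨x, _, rfl⟩ := Finset.mem_image.1 hs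
      show (G.filter (fun u => u ≤ x)).sup id ∈ _
      set A : Finset L := Mx.filter (fun m' => ∃ u ∈ G, u ≤ x ∧ m' ≤ u) with hA
      obtain ⟨B, hBA, hBb, hB⟩ := h A (Finset.filter_subset _ _)
      have hAJ : A.sup id = (G.filter (fun u => u ≤ x)).sup id := by
        apply le_antisymm
        · refine Finset.sup_le ?_
          intro m' hm'
          obtain ⟨_, u, hu, hux, hmu⟩ := Finset.mem_filter.1 hm'
          exact hmu.trans (Finset.le_sup (f := id) (Finset.mem_filter.2 ⟨hu, hux⟩))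
        · refine Finset.sup_le ?_
          intro u hu
          rw [Finset.mem_filter] at hu
          obtain ⟨C, hC, rfl⟩ := hGM u hu.1
          refine Finset.sup_mono ?_
          intro m' hm'
          exact Finset.mem_filter.2 ⟨hC hm', _, hu.1, hu.2, Finset.le_sup (f := id) hm'⟩
      have hex : ∀ m' ∈ B, ∃ u ∈ G, u ≤ x ∧ m' ≤ u := fun m' hm' =>
        (Finset.mem_filter.1 (hBA hm')).2
      choose! γ hγG hγx hγm using hex
      have hT1 : B.image γ ⊆ G.filter (fun u => u ≤ x) := by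
        intro u hu
        obtain ⟨m', hm', rfl⟩ := Finset.mem_image.1 hu
        exact Finset.mem_filter.2 ⟨hγG m' hm', hγx m' hm'⟩
      have hT2 : (B.image γ).sup id = (G.filter (fun u => u ≤ x)).sup id := by
        apply le_antisymm (Finset.sup_mono hT1)
        rw [← hAJ, ← hB]
        refine Finset.sup_le ?_
        intro m' hm'
        exact (hγm m' hm').trans (Finset.le_sup (f := id) (Finset.mem_image_of_mem γ hm'))
      rw [← hT2]
      exact H73.BrCls.sup_mem b G (B.image γ) (hT1.trans (Finset.filter_subset _ _))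
        (Finset.card_image_le.trans hBb)
    refine (Finset.card_le_card hsub).trans ((H73.BrCls.card_aux b G ⊥ _).trans ?_)
    exact Nat.pow_le_pow_left (Nat.succ_le_succ hGcard) b

open Finset

variable {L : Type*} [Lattice L] [BoundedOrder L] [Fintype L]

open Classical in
/-- Joins of members have the same breadth. -/
theorem breadth_of_joins (b : ℕ) (Mx : Finset L)
    (h : ∀ A ⊆ Mx, ∃ B ⊆ A, B.card ≤ b ∧ B.sup id = A.sup id) (M1 : Finset L)
    (hM1 : ∀ u ∈ M1, ∃ A ⊆ Mx, u = A.sup id) :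
    ∀ A ⊆ M1, ∃ B ⊆ A, B.card ≤ b ∧ B.sup id = A.sup id := by
  intro A hA
  obtain ⟨B, hBA, hBb, hB⟩ := h (Mx.filter (fun m' => ∃ u ∈ A, m' ≤ u)) (Finset.filter_subset _ _)
  have hex : ∀ m' ∈ B, ∃ u ∈ A, m' ≤ u := fun m' hm' => (Finset.mem_filter.1 (hBA hm')).2
  choose! γ hγA hγm using hex
  have hT1 : B.image γ ⊆ A := by
    intro u hu
    obtain ⟨m', hm', rfl⟩ := Finset.mem_image.1 hu
    exact hγA m' hm'
  refine ⟨B.image γ, hT1, Finset.card_image_le.trans hBb, le_antisymm (Finset.sup_mono hT1) ?_⟩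
  have h1 : A.sup id ≤ (Mx.filter (fun m' => ∃ u ∈ A, m' ≤ u)).sup id := by
    refine Finset.sup_le fun u hu => ?_
    obtain ⟨C, hC, hCu⟩ := hM1 u (hA hu)
    show u ≤ _
    rw [hCu]
    refine Finset.sup_mono ?_
    intro m' hm'
    refine Finset.mem_filter.2 ⟨hC hm', u, hu, ?_⟩
    rw [hCu]
    exact Finset.le_sup (f := id) hm'
  refine h1.trans ?_
  rw [← hB]
  refine Finset.sup_le fun m' hm' => ?_
  exact (hγm m' hm').trans (Finset.le_sup (f := id) (Finset.mem_image_of_mem γ hm'))

omit [Lattice L] [BoundedOrder L] in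
/-- A map that factors through `c` has at most as many values as `c`. -/
theorem card_image_le_of_factor {α β : Type*} [DecidableEq α] [DecidableEq β] (f : L → α)
    (c : L → β)
    (hf : ∀ x x', c x = c x' → f x = f x') :
    ((univ : Finset L).image f).card ≤ ((univ : Finset L).image c).card := by
  have hex : ∀ v ∈ (univ : Finset L).image f, ∃ x : L, f x = v := by
    intro v hv
    obtain ⟨x, -, hx⟩ := Finset.mem_image.1 hv
    exact ⟨x, hx⟩
  rcases isEmpty_or_nonempty L with hL | hL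
  · simp
  choose! r hr using hex
  refine Finset.card_le_card_of_injOn (fun v => c (r v)) ?_ ?_
  · intro v _
    exact Finset.mem_coe.2 (Finset.mem_image_of_mem c (Finset.mem_univ _))
  · intro v hv w hw hvw
    rw [← hr v hv, ← hr w hw]
    exact hf _ _ hvw

open Classical in
/-- Sets hit by `Y` give a small loss. -/
theorem loss (F : L × L → Finset L) (hF : ∀ p, F p = univ.filter (fun y => p.1 ≤ y ∧ ¬ p.2 ≤ y))
    (S : Finset (L × L)) (e : ℝ) (Y : Finset L)
    (hY : ∀ p ∈ S.filter (fun p => e * Fintype.card L ≤ ((F p).card : ℝ)), ∃ y ∈ Y, y ∈ F p)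
    (u z : L) (hS : (u, z) ∈ S) (huz : ∀ y ∈ Y, u ≤ y → z ≤ y) :
    (((univ : Finset L).filter (fun y => u ≤ y)).card : ℝ) ≤
      ((univ : Finset L).filter (fun y => z ≤ y)).card + e * Fintype.card L := by
  have h1 : ((F (u, z)).card : ℝ) < e * Fintype.card L := by
    by_contra hcon
    push Not at hcon
    obtain ⟨y, hy, hyF⟩ := hY (u, z) (Finset.mem_filter.2 ⟨hS, hcon⟩)
    rw [hF, Finset.mem_filter] at hyF
    exact hyF.2.2 (huz y hy hyF.2.1)
  have h2 : (univ : Finset L).filter (fun y => u ≤ y) ⊆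
      (univ : Finset L).filter (fun y => z ≤ y) ∪ F (u, z) := by
    intro y hy
    rw [hF, Finset.mem_union, Finset.mem_filter, Finset.mem_filter]
    rw [Finset.mem_filter] at hy
    by_cases hz : z ≤ y
    · exact Or.inl ⟨hy.1, hz⟩
    · exact Or.inr ⟨hy.1, hy.2, hz⟩
  have h3 := (Finset.card_le_card h2).trans (Finset.card_union_le _ _)
  have h4 : (((univ : Finset L).filter (fun y => u ≤ y)).card : ℝ) ≤
      ((univ : Finset L).filter (fun y => z ≤ y)).card + ((F (u, z)).card : ℝ) := by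
    exact_mod_cast h3
  linarith

theorem log_card_le {n m : ℕ} (hm : 1 ≤ m) (h : n ≤ m * m) : Real.log n ≤ 2 * Real.log m := by
  have hm' : (0 : ℝ) < m := by exact_mod_cast hm
  rcases Nat.eq_zero_or_pos n with rfl | hn
  · have : 0 ≤ Real.log m := Real.log_nonneg (by exact_mod_cast hm)
    simpa using this
  · have h1 : (n : ℝ) ≤ m * m := by exact_mod_cast h
    have h2 : (0 : ℝ) < n := by exact_mod_cast hn
    have h3 := Real.log_le_log h2 h1
    rw [Real.log_mul hm'.ne' hm'.ne'] at h3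
    linarith

open Classical in
/-- Two levels of classes. -/
theorem two_levels (b : ℕ) (Mx : Finset L)
    (h : ∀ A ⊆ Mx, ∃ B ⊆ A, B.card ≤ b ∧ B.sup id = A.sup id) (e e1 : ℝ) (t t1 : ℕ)
    (ht : 2 * Real.log (Fintype.card L) < e * t)
    (ht1 : 2 * Real.log ((((t + 1) ^ b + 1) ^ b : ℕ) : ℝ) < e1 * t1) :
    ∃ g g1 : L → L,
      (∀ m ∈ Mx, m ≤ g m) ∧ (∀ m ∈ Mx, g m ≤ g1 m) ∧
      (∀ m ∈ Mx, (((univ : Finset L).filter (fun y => m ≤ y)).card : ℝ) ≤
        ((univ : Finset L).filter (fun y => g m ≤ y)).card + e * Fintype.card L) ∧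
      (∀ m ∈ Mx, (((univ : Finset L).filter (fun y => g m ≤ y)).card : ℝ) ≤
        ((univ : Finset L).filter (fun y => g1 m ≤ y)).card + e1 * Fintype.card L) ∧
      ((univ : Finset L).image (fun x => Mx.filter (fun m => g m ≤ x))).card ≤
        ((t + 1) ^ b + 1) ^ b ∧
      ((univ : Finset L).image (fun x => Mx.filter (fun m => g1 m ≤ x))).card ≤
        ((t1 + 1) ^ b + 1) ^ b ∧
      (∀ x x', (∀ m ∈ Mx, g m ≤ x ↔ g m ≤ x') → (∀ m ∈ Mx, g1 m ≤ x ↔ g1 m ≤ x')) := by
  have : Nonempty L := ⟨⊥⟩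
  have hN : 1 ≤ Fintype.card L := Fintype.card_pos
  obtain ⟨F, hF⟩ : ∃ F : L × L → Finset L,
    ∀ p, F p = univ.filter (fun y => p.1 ≤ y ∧ ¬ p.2 ≤ y) := ⟨_, fun _ => rfl⟩
  -- level 1
  obtain ⟨Y, hYt, hY⟩ := H38.BR.hitting_log F
    ((univ : Finset (L × L)).filter (fun p => e * Fintype.card L ≤ ((F p).card : ℝ))) e
    (fun p hp => (Finset.mem_filter.1 hp).2) t (lt_of_le_of_lt (log_card_le hN (by
      refine (Finset.card_filter_le _ _).trans ?_
      rw [Finset.card_univ, Fintype.card_prod])) ht)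
  obtain ⟨g, cls, hg1, hg2, hg3, hg4, hg5⟩ := classes' b Mx h Y
  have hKle : ((univ : Finset L).image (fun x => Mx.filter (fun m => g m ≤ x))).card ≤
      ((t + 1) ^ b + 1) ^ b := by
    refine (card_image_le_of_factor _ cls ?_).trans (hg5.trans ?_)
    · intro x x' hx
      refine Finset.filter_congr fun m _ => ?_
      exact hg4 x x' hx m
    · exact Nat.pow_le_pow_left (Nat.succ_le_succ (Nat.pow_le_pow_left (Nat.succ_le_succ hYt) b)) b
  -- level 2
  obtain ⟨M1, hM1⟩ : ∃ M1 : Finset L, M1 = Mx.image g := ⟨_, rfl⟩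
  have hM1' : ∀ u ∈ M1, ∃ A ⊆ Mx, u = A.sup id := by
    intro u hu
    rw [hM1] at hu
    obtain ⟨m, _, rfl⟩ := Finset.mem_image.1 hu
    exact hg2 m
  have hb1 := breadth_of_joins b Mx h M1 hM1'
  obtain ⟨Z, hZ⟩ : ∃ Z : Finset L, Z = M1.powerset.image (fun A => A.sup id) := ⟨_, rfl⟩
  have hZcard : Z.card ≤ ((t + 1) ^ b + 1) ^ b := by
    refine le_trans ?_ hKle
    refine Finset.card_le_card_of_injOn (fun x => Mx.filter (fun m => g m ≤ x)) ?_ ?_
    · intro z _
      exact Finset.mem_coe.2 (Finset.mem_image_of_mem _ (Finset.mem_univ _))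
    · have key : ∀ z ∈ Z, z = (Mx.filter (fun m => g m ≤ z)).sup g := by
        intro z hz
        rw [hZ, Finset.mem_image] at hz
        obtain ⟨A, hA, rfl⟩ := hz
        rw [Finset.mem_powerset] at hA
        apply le_antisymm
        · refine Finset.sup_le fun u hu => ?_
          have h2 := hA hu
          rw [hM1] at h2
          obtain ⟨m, hm, hmu⟩ := Finset.mem_image.1 h2
          show u ≤ _
          rw [← hmu]
          refine Finset.le_sup (f := g) (Finset.mem_filter.2 ⟨hm, ?_⟩)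
          rw [hmu]
          exact Finset.le_sup (f := id) hu
        · exact Finset.sup_le fun m hm => (Finset.mem_filter.1 hm).2
      intro z hz z' hz' hzz
      rw [key z hz, key z' hz']
      simp only at hzz
      rw [hzz]
  have hM1Z : M1 ⊆ Z := by
    intro u hu
    rw [hZ, Finset.mem_image]
    exact ⟨{u}, by rw [Finset.mem_powerset, Finset.singleton_subset_iff]; exact hu, by simp⟩
  obtain ⟨Y1, hY1t, hY1⟩ := H38.BR.hitting_log F
    ((M1 ×ˢ Z).filter (fun p => e1 * Fintype.card L ≤ ((F p).card : ℝ))) e1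
    (fun p hp => (Finset.mem_filter.1 hp).2) t1 (lt_of_le_of_lt (log_card_le
      (Nat.one_le_iff_ne_zero.2 (by positivity)) (by
      refine (Finset.card_filter_le _ _).trans ?_
      rw [Finset.card_product]
      exact Nat.mul_le_mul ((Finset.card_le_card hM1Z).trans hZcard) hZcard)) ht1)
  obtain ⟨g', cls', hp1, hp2, hp3, hp4, hp5⟩ := classes' b M1 hb1 Y1
  have hgM1 : ∀ m ∈ Mx, g m ∈ M1 := fun m hm => by
    rw [hM1]; exact Finset.mem_image_of_mem g hm
  refine ⟨g, fun m => g' (g m), hg1, fun m hm => hp1 _ (hgM1 m hm), ?_, ?_, hKle, ?_, ?_⟩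
  · intro m _
    exact loss F hF univ e Y hY m (g m) (Finset.mem_univ _) (fun y hy hmy => hg3 m y hy hmy)
  · intro m hm
    refine loss F hF (M1 ×ˢ Z) e1 Y1 hY1 (g m) (g' (g m)) ?_ (fun y hy hmy => hp3 _ y hy hmy)
    rw [Finset.mem_product]
    refine ⟨hgM1 m hm, ?_⟩
    obtain ⟨A, hA, hAe⟩ := hp2 (g m)
    show g' (g m) ∈ Z
    rw [hAe, hZ]
    exact Finset.mem_image_of_mem _ (Finset.mem_powerset.2 hA)
  · refine (card_image_le_of_factor _ cls' ?_).trans (hp5.trans ?_)
    · intro x x' hx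
      refine Finset.filter_congr fun m _ => ?_
      exact hp4 x x' hx (g m)
    · exact Nat.pow_le_pow_left (Nat.succ_le_succ (Nat.pow_le_pow_left (Nat.succ_le_succ hY1t) b)) b
  · intro x x' hx m _
    obtain ⟨A, hA, hAe⟩ := hp2 (g m)
    have h2 : ∀ z z' : L, (∀ m ∈ Mx, g m ≤ z ↔ g m ≤ z') → g' (g m) ≤ z → g' (g m) ≤ z' := by
      intro z z' hz hle
      rw [hAe] at hle ⊢
      refine Finset.sup_le fun u hu => ?_
      have h3 := hA hu
      rw [hM1] at h3
      obtain ⟨m', hm', hmu⟩ := Finset.mem_image.1 h3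
      show u ≤ z'
      rw [← hmu]
      refine (hz m' hm').1 ?_
      rw [hmu]
      exact (Finset.le_sup (f := id) hu).trans hle
    exact ⟨h2 x x' hx, h2 x' x (fun m hm => (hx m hm).symm)⟩

end Pool.Agent.H51.TwoLev
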